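import Pool.Agent.K3h49.Lat.Stm

/-!
Brick CHAIN of the project on sums of sets closed under `gcd` and `lcm` (owner helper49).
-/

set_option autoImplicit false

namespace Pool.Agent.K3h56.Lat

open Finset
open scoped Pointwise Classical

/-- the final numerical comparison -/
lemma chain_num {g W w n y N : ℝ} (hg0 : 0 < g) (hg1 : g < 1) (hW : 0 ≤ W) (hw : 0 ≤ w)
    (hn : 0 < n) (hy : 0 ≤ y) (h1 : (W + w) * (n - y) ≤ N) (h2 : W * (n + g * y) ≤ N)
    (h3 : w * n ≤ N) : (W + g / 4 * w) * n ≤ N := by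
  by_cases hA : W ≤ (1 - g / 4) * w
  · refine le_trans (mul_le_mul_of_nonneg_right ?_ hn.le) h3
    linarith
  push Not at hA
  by_cases hB : y * (W + w) ≤ (1 - g / 4) * w * n
  · refine le_trans ?_ h1
    nlinarith
  push Not at hB
  refine le_trans ?_ h2
  have hWw : 0 < W + w := by
    have : 0 ≤ (1 - g / 4) * w := mul_nonneg (by linarith) hw
    linarith
  have key : g / 4 * w * n ≤ g * y * W := by
    have e1 : g * W * ((1 - g / 4) * w * n) ≤ g * W * (y * (W + w)) :=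
      mul_le_mul_of_nonneg_left hB.le (by positivity)
    have e2 : g / 4 * w * n * (W + w) ≤ g * W * ((1 - g / 4) * w * n) := by
      have e3 : (W + w) ≤ 4 * W * (1 - g / 4) := by nlinarith
      have e4 : 0 ≤ g / 4 * w * n := by positivity
      calc g / 4 * w * n * (W + w) ≤ g / 4 * w * n * (4 * W * (1 - g / 4)) :=
            mul_le_mul_of_nonneg_left e3 e4
        _ = g * W * ((1 - g / 4) * w * n) := by ring
    have e5 : g / 4 * w * n * (W + w) ≤ (g * y * W) * (W + w) := by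
      calc _ ≤ g * W * (y * (W + w)) := le_trans e2 e1
        _ = _ := by ring
    exact le_of_mul_le_mul_right e5 hWw
  nlinarith

theorem t_chain : Pool.Agent.K3h49.Lat.ChainStm := by
  intro ε hε0 hε1 u X Y hY hX W w hW hw hYB hXB B hB
  set f : ℤ → ℤ := fun b => b % u with hf
  have hcong : ∀ a b : ℤ, f a = f b ↔ u ∣ a - b := by
    intro a b
    rw [hf]
    simp only
    rw [Int.emod_eq_emod_iff_emod_sub_eq_zero]
    exact Int.dvd_iff_emod_eq_zero.symm
  set R : Finset ℤ := B.image f with hR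
  set F : ℤ → Finset ℤ := fun ρ => B.filter (fun b => f b = ρ) with hF
  have hRne : R.Nonempty := hB.image f
  have hFne : ∀ ρ ∈ R, (F ρ).Nonempty := by
    intro ρ hρ
    obtain ⟨b, hb, hb'⟩ := Finset.mem_image.1 hρ
    exact ⟨b, by simp [hF, hb, hb']⟩
  have hcardB : (B.card : ℝ) = ∑ ρ ∈ R, ((F ρ).card : ℝ) := by
    have := Finset.card_eq_sum_card_image f B
    rw [this]
    push_cast
    rfl
  obtain ⟨ρ₀, hρ₀, hmax⟩ := Finset.exists_max_image R (fun ρ => (F ρ).card) hRne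
  set n : ℝ := (B.card : ℝ) with hn
  set m : ℝ := ((F ρ₀).card : ℝ) with hm
  have hnpos : 0 < n := by
    rw [hn]; exact_mod_cast hB.card_pos
  have hmpos : 0 < m := by
    rw [hm]; exact_mod_cast (hFne ρ₀ hρ₀).card_pos
  have hmn : m ≤ n := by
    rw [hm, hn]; exact_mod_cast Finset.card_le_card (Finset.filter_subset _ _)
  have hsum2 : n = m + ∑ ρ ∈ R.erase ρ₀, ((F ρ).card : ℝ) := by
    rw [hcardB, ← Finset.add_sum_erase _ _ hρ₀]
  set N : ℝ := ((((X ∪ Y) + B).card : ℕ) : ℝ) with hN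
  -- bound (1)
  have hb1 : (W + w) * m ^ (1 - ε) ≤ N := by
    have hd : Disjoint (Y + F ρ₀) (X + F ρ₀) := by
      rw [Finset.disjoint_left]
      intro z hz1 hz2
      obtain ⟨y, hy, b, hb, rfl⟩ := Finset.mem_add.1 hz1
      obtain ⟨x, hx, b', hb', h⟩ := Finset.mem_add.1 hz2
      have hbb : u ∣ b - b' := by
        rw [← hcong]
        rw [(Finset.mem_filter.1 hb).2, (Finset.mem_filter.1 hb').2]
      apply hX x hx
      have : x = y + (b - b') := by linarith
      rw [this]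
      exact dvd_add (hY y hy) hbb
    have hsub : (Y + F ρ₀) ∪ (X + F ρ₀) ⊆ (X ∪ Y) + B := by
      apply Finset.union_subset
      · exact Finset.add_subset_add Finset.subset_union_right (Finset.filter_subset _ _)
      · exact Finset.add_subset_add Finset.subset_union_left (Finset.filter_subset _ _)
    have hc : ((Y + F ρ₀).card : ℝ) + ((X + F ρ₀).card : ℝ) ≤ N := by
      rw [hN]
      exact_mod_cast (Finset.card_union_of_disjoint hd ▸ Finset.card_le_card hsub)
    have h1 := hYB (F ρ₀) (hFne ρ₀ hρ₀)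
    have h2 := hXB (F ρ₀) (hFne ρ₀ hρ₀)
    calc (W + w) * m ^ (1 - ε) = W * m ^ (1 - ε) + w * m ^ (1 - ε) := by ring
      _ ≤ N := by linarith
  -- bound (2)
  have hb2 : W * ∑ ρ ∈ R, ((F ρ).card : ℝ) ^ (1 - ε) ≤ N := by
    have hd : (R : Set ℤ).PairwiseDisjoint (fun ρ => Y + F ρ) := by
      intro ρ hρ ρ' hρ' hne
      rw [Function.onFun, Finset.disjoint_left]
      intro z hz1 hz2
      obtain ⟨y, hy, b, hb, rfl⟩ := Finset.mem_add.1 hz1
      obtain ⟨y', hy', b', hb', h⟩ := Finset.mem_add.1 hz2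
      apply hne
      rw [← (Finset.mem_filter.1 hb).2, ← (Finset.mem_filter.1 hb').2, hcong]
      have : b - b' = y' - y := by linarith
      rw [this]
      exact dvd_sub (hY y' hy') (hY y hy)
    have hsub : R.biUnion (fun ρ => Y + F ρ) ⊆ (X ∪ Y) + B := by
      intro z hz
      obtain ⟨ρ, _, hz⟩ := Finset.mem_biUnion.1 hz
      exact Finset.add_subset_add Finset.subset_union_right (Finset.filter_subset _ _) hz
    have hc : ∑ ρ ∈ R, ((Y + F ρ).card : ℝ) ≤ N := by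
      rw [hN]
      exact_mod_cast (Finset.card_biUnion hd ▸ Finset.card_le_card hsub)
    refine le_trans ?_ hc
    rw [Finset.mul_sum]
    exact Finset.sum_le_sum fun ρ hρ => hYB (F ρ) (hFne ρ hρ)
  -- bound (3)
  have hb3 : w * n ^ (1 - ε) ≤ N := by
    refine le_trans (hXB B hB) ?_
    rw [hN]
    exact_mod_cast Finset.card_le_card (Finset.add_subset_add_right Finset.subset_union_left)
  -- powers
  set k : ℝ := n ^ (-ε) with hk
  have hkpos : 0 < k := Real.rpow_pos_of_pos hnpos _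
  have hpow : ∀ c : ℝ, 0 < c → c ^ (1 - ε) = c * c ^ (-ε) := by
    intro c hc
    rw [sub_eq_add_neg, Real.rpow_add hc, Real.rpow_one]
  have hpn : n ^ (1 - ε) = n * k := hpow n hnpos
  have hpm : m * k ≤ m ^ (1 - ε) := by
    rw [hpow m hmpos]
    apply mul_le_mul_of_nonneg_left _ hmpos.le
    exact Real.rpow_le_rpow_of_nonpos hmpos hmn (by linarith)
  have hpr : ∀ ρ ∈ R.erase ρ₀, (2 : ℝ) ^ ε * k * ((F ρ).card : ℝ) ≤
      ((F ρ).card : ℝ) ^ (1 - ε) := by
    intro ρ hρ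
    have hρR := Finset.mem_of_mem_erase hρ
    have hc0 : (0 : ℝ) < ((F ρ).card : ℝ) := by exact_mod_cast (hFne ρ hρR).card_pos
    have hcm : ((F ρ).card : ℝ) ≤ m := by
      rw [hm]; exact_mod_cast hmax ρ hρR
    have hcs : ((F ρ).card : ℝ) ≤ ∑ ρ ∈ R.erase ρ₀, ((F ρ).card : ℝ) :=
      Finset.single_le_sum (f := fun ρ => ((F ρ).card : ℝ)) (fun i _ => by positivity) hρ
    have hhalf : ((F ρ).card : ℝ) ≤ n / 2 := by linarith
    rw [hpow _ hc0]
    have e1 : (n / 2) ^ (-ε) ≤ ((F ρ).card : ℝ) ^ (-ε) :=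
      Real.rpow_le_rpow_of_nonpos hc0 hhalf (by linarith)
    have e2 : (n / 2) ^ (-ε) = (2 : ℝ) ^ ε * k := by
      rw [Real.div_rpow hnpos.le (by norm_num), Real.rpow_neg (by norm_num : (0 : ℝ) ≤ 2)]
      rw [div_inv_eq_mul]
      ring
    rw [e2] at e1
    calc (2 : ℝ) ^ ε * k * ((F ρ).card : ℝ) = ((F ρ).card : ℝ) * ((2 : ℝ) ^ ε * k) := by ring
      _ ≤ _ := mul_le_mul_of_nonneg_left e1 hc0.le
  have h2e0 : (1 : ℝ) < (2 : ℝ) ^ ε := Real.one_lt_rpow (by norm_num) hε0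
  have h2e1 : (2 : ℝ) ^ ε < 2 := by
    calc (2 : ℝ) ^ ε < (2 : ℝ) ^ (1 : ℝ) := Real.rpow_lt_rpow_of_exponent_lt (by norm_num) hε1
      _ = 2 := Real.rpow_one 2
  have hsumlow : k * (n + ((2 : ℝ) ^ ε - 1) * (n - m)) ≤ ∑ ρ ∈ R, ((F ρ).card : ℝ) ^ (1 - ε) := by
    rw [← Finset.add_sum_erase _ _ hρ₀]
    have e1 : (2 : ℝ) ^ ε * k * (n - m) ≤ ∑ ρ ∈ R.erase ρ₀, ((F ρ).card : ℝ) ^ (1 - ε) := by
      have : n - m = ∑ ρ ∈ R.erase ρ₀, ((F ρ).card : ℝ) := by linarith
      rw [this, Finset.mul_sum]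
      exact Finset.sum_le_sum hpr
    calc k * (n + ((2 : ℝ) ^ ε - 1) * (n - m)) = m * k + (2 : ℝ) ^ ε * k * (n - m) := by ring
      _ ≤ _ := add_le_add hpm e1
  have hfin := chain_num (g := (2 : ℝ) ^ ε - 1) (W := W) (w := w) (n := n) (y := n - m)
    (N := N / k) (by linarith) (by linarith) hW hw hnpos (by linarith)
    (by
      rw [le_div_iff₀ hkpos]
      calc (W + w) * (n - (n - m)) * k = (W + w) * (m * k) := by ring
        _ ≤ (W + w) * m ^ (1 - ε) := mul_le_mul_of_nonneg_left hpm (by linarith)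
        _ ≤ N := hb1)
    (by
      rw [le_div_iff₀ hkpos]
      calc W * (n + ((2 : ℝ) ^ ε - 1) * (n - m)) * k =
            W * (k * (n + ((2 : ℝ) ^ ε - 1) * (n - m))) := by ring
        _ ≤ W * ∑ ρ ∈ R, ((F ρ).card : ℝ) ^ (1 - ε) := mul_le_mul_of_nonneg_left hsumlow hW
        _ ≤ N := hb2)
    (by
      rw [le_div_iff₀ hkpos]
      calc w * n * k = w * (n * k) := by ring
        _ = w * n ^ (1 - ε) := by rw [hpn]
        _ ≤ N := hb3)
  rw [le_div_iff₀ hkpos] at hfin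
  calc (W + ((2 : ℝ) ^ ε - 1) / 4 * w) * n ^ (1 - ε) =
        (W + ((2 : ℝ) ^ ε - 1) / 4 * w) * n * k := by rw [hpn]; ring
    _ ≤ N := hfin

end Pool.Agent.K3h56.Lat
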